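import Pool.Agent.Q59.S6.All

/-!
# The Hodge conjecture for Fermat varieties of every dimension, outside finitely many divisors

The Hodge classes on the Fermat variety `X : x_0 ^ m + ... + x_(n+1) ^ m = 0` of even dimension `n`
are spanned, apart from the power of the hyperplane class, by the lines of the Hodge characters with
`n + 2` entries (Shioda). The lines of the pairs `{a, -a}` and of unions are algebraic by the inductive
structure of Fermat varieties (Shioda, Katsura), those of the Hodge characters with four entries by
the theorem of Lefschetz on `(1, 1)` classes, those of the standard characters by Aoki and Shioda;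
removing a pair and passing from the degree `2 * m` to the degree `m` preserve algebraicity
(Shioda). The curve products (see `FermatFourfolds`) are Hodge characters `b ∪ b'` where `b`, `b'` live
on Fermat curves or on uniruled quotients of the Fermat threefold, so that their lines are algebraic
by the theorem of Lefschetz on `(1, 1)` classes, too. So the lines of the Hodge characters which are
`AlgebraicLine` are algebraic, and if all Hodge characters of degree `m` with `n + 2` entries are
`AlgebraicLine`, the Hodge conjecture holds for `X`.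

The theorem: for every `k` there is an explicit finite set of natural numbers (`ExcludedEven k` and
`ExcludedOdd k`) such that every Hodge character with at most `k` entries of even (odd) degree `m` is
`AlgebraicLine` if no element of `ExcludedEven k` (of `ExcludedOdd k`) divides `m`. So, with
`k = n + 2`, the Hodge conjecture holds for the Fermat varieties of dimension at most `n` of all these
degrees.

For `n = 6` the excluded divisors of even degrees are `68, 110, 130, 138, 170, 174, 186, 420`, those of
odd degrees are none; for `n = 8` they are `68, 76, 110, 130, 138, 154, 170, 174, 186, 190, 222, 246, 420`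
and `55, 77`.
-/

namespace Pool.Agent.Q59.Old.FermatAllDimensions1

open Pool.Agent.H916R2 Pool.Agent.Y2.Cv

/-- Membership in the family generated by the pairs, the standard characters, the characters with
four entries and the curve products, in the degree `m` if `m` is even and in the degree `2 * m` if
`m` is odd. -/
def AlgebraicLine (m : ℕ) (s : Multiset (ZMod m)) : Prop :=
  (Even m → Generated m (SurfaceOrCurveProduct m) s) ∧
    (Odd m → Generated (2 * m) (SurfaceOrCurveProduct (2 * m))
      (s.map fun a => ((2 * a.val : ℕ) : ZMod (2 * m))))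

/-- The excluded divisors of even degrees for the characters with at most `k` entries: `420`,
`4 * q` with `17 ≤ q ≤ 2 * k + 1`, `6 * q` with `23 ≤ q ≤ 4 * k + 1`, `10 * q` with
`11 ≤ q ≤ 2 * k + 1` and `2 * p * q` with `7 ≤ p < q ≤ k + 1`, where `p` and `q` are primes. -/
def ExcludedEven (k : ℕ) : Set ℕ :=
  {l | l = 420 ∨ (∃ q : ℕ, q.Prime ∧ 17 ≤ q ∧ q ≤ 2 * k + 1 ∧ l = 4 * q) ∨
    (∃ q : ℕ, q.Prime ∧ 23 ≤ q ∧ q ≤ 4 * k + 1 ∧ l = 6 * q) ∨
    (∃ q : ℕ, q.Prime ∧ 11 ≤ q ∧ q ≤ 2 * k + 1 ∧ l = 10 * q) ∨
    (∃ p q : ℕ, p.Prime ∧ q.Prime ∧ 7 ≤ p ∧ p < q ∧ q ≤ k + 1 ∧ l = 2 * p * q)}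

/-- The excluded divisors of odd degrees for the characters with at most `k` entries: `3 * q` with
`23 ≤ q ≤ 2 * k + 1` and `p * q` with `5 ≤ p < q`, `11 ≤ q ≤ k + 1`, where `p` and `q` are primes. -/
def ExcludedOdd (k : ℕ) : Set ℕ :=
  {l | (∃ q : ℕ, q.Prime ∧ 23 ≤ q ∧ q ≤ 2 * k + 1 ∧ l = 3 * q) ∨
    (∃ p q : ℕ, p.Prime ∧ q.Prime ∧ 5 ≤ p ∧ p < q ∧ 11 ≤ q ∧ q ≤ k + 1 ∧ l = p * q)}

/-- **All dimensions, all degrees outside the multiples of finitely many numbers.** -/
theorem result (k m : ℕ) (hm : 0 < m) (heven : Even m → ∀ l ∈ ExcludedEven k, ¬ l ∣ m)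
    (hodd : Odd m → ∀ l ∈ ExcludedOdd k, ¬ l ∣ m)
    (s : Multiset (ZMod m)) (hs : IsHodge m s) (hne : s ≠ 0) (hcard : Multiset.card s ≤ k) :
    AlgebraicLine m s := by
  have : NeZero m := ⟨hm.ne'⟩
  refine ⟨fun he => ?_, fun ho => ?_⟩
  · exact Pool.Agent.Q59.S6.main_all_even he.two_dvd (fun l hl => heven he l hl) hs hne hcard
  · exact Pool.Agent.Q59.S6.main_all_odd (Nat.odd_iff.mp ho) (fun l hl => hodd ho l hl) hs hne hcard

end Pool.Agent.Q59.Old.FermatAllDimensions1
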